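import Pool.Agent.H22.GW.Defs

/-!
# Project AB, bridge (A) to (B): the function `Lam` attached to a Dirichlet character

`Ω` a field of characteristic `p`, `ψ` a Dirichlet character mod `f` with values in `Ω`, `f ≥ 2`,
`2 ≤ c < p` prime to `f`, `p ∤ f`, `m = f p`.  The function
`λ(z) = ∑_{0 ≤ t < m} ⌊c t / m⌋ ψ(t) / (f z - t)` satisfies
`λ(z+1) - λ(z) = κ ∑_{0 < h < c f} W_h / (c f z + h)`, `W_h = ψ(h) (1 - c [c ∣ h])`,
`κ = c ψ(-1) ψ(c)⁻¹`.  After addition of a multiple of `1 / (z ^ p - z)` it has no pole at `0` and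
`(z ^ (p-1) - 1) λ` is a polynomial of degree `≤ p - 2` whose coefficient of `z ^ j`, `j < p - 2`, is
`f ^ j ∑_{0 < t < m, p ∤ t} ⌊c t / m⌋ ψ(t) t ^ (-(j+1))`.
-/

namespace H78AB

open Polynomial Finset H22GW

/-- one step: the jumps of `u ↦ ⌊c u / m⌋` -/
theorem div_step (m a L : ℕ) :
    (a + L) / m = a / m + ∑ h ∈ Ioc 0 L, if m ∣ a + h then 1 else 0 := by
  induction L with
  | zero => simp
  | succ L ih =>
    rw [sum_Ioc_succ_top (Nat.zero_le L), ← add_assoc, Nat.succ_div, ih]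
    ring_nf

/-- the telescoping identity -/
theorem tele {K : Type*} [CommRing K] (F G : ℕ → K) (c f m : ℕ) (hc : 1 ≤ c) (_hf : 1 ≤ f)
    (hcm : c.Coprime m) (hfm : c * f < m)
    (F' : ℕ → K) (hF' : ∀ u, F' (u + f) = F u)
    (hG : ∀ u h, m ∣ c * u + h → F u = G h) :
    ∑ t ∈ range m, ((c * t / m : ℕ) : K) * F' t - ∑ t ∈ range m, ((c * t / m : ℕ) : K) * F t =
      ∑ h ∈ Ioc 0 (c * f), G h - (c : K) * ∑ s ∈ Ioc 0 f, G (c * s) := by
  have hm : 0 < m := by omega
  have hfm' : f < m := lt_of_le_of_lt (Nat.le_mul_of_pos_left f hc) hfm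
  -- first sum
  have h1 : ∑ t ∈ range m, ((c * t / m : ℕ) : K) * F' t =
      ∑ u ∈ range (m - f), ((c * (u + f) / m : ℕ) : K) * F u := by
    obtain ⟨n, rfl⟩ : ∃ n, m = f + n := ⟨m - f, by omega⟩
    rw [sum_range_add, Nat.add_sub_cancel_left]
    have h2 : ∑ t ∈ range f, ((c * t / (f + n) : ℕ) : K) * F' t = 0 := by
      refine sum_eq_zero fun t ht => ?_
      rw [mem_range] at ht
      rw [Nat.div_eq_of_lt, Nat.cast_zero, zero_mul]
      exact lt_of_le_of_lt (Nat.mul_le_mul_left c ht.le) hfm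
    rw [h2, zero_add]
    refine sum_congr rfl fun u _ => ?_
    rw [add_comm f u, hF']
  have h2 : ∑ u ∈ range (m - f), ((c * (u + f) / m : ℕ) : K) * F u =
      ∑ u ∈ range m, ((c * (u + f) / m : ℕ) : K) * F u - (c : K) * ∑ s ∈ Ioc 0 f, G (c * s) := by
    have h3 : ∑ u ∈ range m, ((c * (u + f) / m : ℕ) : K) * F u =
        ∑ u ∈ range (m - f), ((c * (u + f) / m : ℕ) : K) * F u +
          ∑ u ∈ range f, ((c * (m - f + u + f) / m : ℕ) : K) * F (m - f + u) := by
      conv_lhs => rw [show m = (m - f) + f by omega, sum_range_add]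
      rw [show m - f + f = m by omega]
    have h4 : ∑ u ∈ range f, ((c * (m - f + u + f) / m : ℕ) : K) * F (m - f + u) =
        (c : K) * ∑ s ∈ Ioc 0 f, G (c * s) := by
      rw [← sum_range_reflect, mul_sum]
      refine (sum_bij (fun (u : ℕ) (_ : u ∈ range f) => u + 1) ?_ ?_ ?_ ?_)
      · intro u hu
        rw [mem_range] at hu
        rw [mem_Ioc]
        omega
      · intro a _ b _ h
        omega
      · intro b hb
        rw [mem_Ioc] at hb
        exact ⟨b - 1, by rw [mem_range]; omega, by omega⟩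
      · intro u hu
        rw [mem_range] at hu
        have h5 : c * (m - f + (f - 1 - u) + f) / m = c := by
          have h6 : m - f + (f - 1 - u) + f = m + (f - 1 - u) := by omega
          rw [h6, mul_add, mul_comm c m, Nat.mul_add_div hm, Nat.div_eq_of_lt, add_zero]
          refine lt_of_le_of_lt (Nat.mul_le_mul_left c ?_) hfm
          omega
        rw [h5, hG (m - f + (f - 1 - u)) (c * (u + 1))]
        rw [← mul_add, show m - f + (f - 1 - u) + (u + 1) = m by omega]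
        exact dvd_mul_left m c
    rw [h3, h4]
    ring
  rw [h1, h2]
  have h3 : ∑ u ∈ range m, ((c * (u + f) / m : ℕ) : K) * F u - ∑ t ∈ range m, ((c * t / m : ℕ) : K) * F t
      = ∑ h ∈ Ioc 0 (c * f), G h := by
    rw [← sum_sub_distrib]
    have h4 : ∀ u ∈ range m, ((c * (u + f) / m : ℕ) : K) * F u - ((c * u / m : ℕ) : K) * F u =
        ∑ h ∈ Ioc 0 (c * f), if m ∣ c * u + h then F u else 0 := by
      intro u _
      rw [mul_add, div_step m (c * u) (c * f), Nat.cast_add, add_mul, add_sub_cancel_left,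
        Nat.cast_sum, sum_mul]
      refine sum_congr rfl fun h _ => ?_
      split_ifs <;> simp
    rw [sum_congr rfl h4, sum_comm]
    refine sum_congr rfl fun h _ => ?_
    -- the unique `u`
    have : NeZero m := ⟨hm.ne'⟩
    have hcc : (c : ZMod m) * (c : ZMod m)⁻¹ = 1 := ZMod.coe_mul_inv_eq_one c hcm
    have hiff : ∀ u : ℕ, m ∣ c * u + h ↔ (u : ZMod m) = (c : ZMod m)⁻¹ * (-(h : ZMod m)) := by
      intro u
      rw [← ZMod.natCast_eq_zero_iff]
      push_cast
      constructor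
      · intro h5
        have h6 : (c : ZMod m) * (u : ZMod m) = -(h : ZMod m) := eq_neg_of_add_eq_zero_left h5
        rw [← h6, ← mul_assoc, mul_comm (c : ZMod m)⁻¹, hcc, one_mul]
      · intro h5
        rw [h5, ← mul_assoc, hcc, one_mul, neg_add_cancel]
    set u₀ : ℕ := ((c : ZMod m)⁻¹ * (-(h : ZMod m))).val with hu₀
    have hu₀' : m ∣ c * u₀ + h := by
      rw [hiff, hu₀, ZMod.natCast_val, ZMod.cast_id]
    rw [sum_eq_single u₀]
    · rw [if_pos hu₀', hG u₀ h hu₀']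
    · intro u hu hne
      rw [if_neg]
      intro h5
      apply hne
      rw [hiff] at h5
      rw [hu₀, ← h5, ZMod.val_cast_of_lt (mem_range.mp hu)]
    · intro h5
      exact absurd (mem_range.mpr (ZMod.val_lt _)) h5
  rw [← h3]
  ring


section
variable {Ω : Type*} [Field Ω]

/-- the twisted power sum with exponent `j + 1` -/
noncomputable def SS (p f c : ℕ) (ψ : ℕ → Ω) (j : ℕ) : Ω :=
  ∑ t ∈ (range (f * p)).filter (fun t => ¬ p ∣ t),
    ((c * t / (f * p) : ℕ) : Ω) * ψ t * ((t : Ω)⁻¹) ^ (j + 1)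

/-- the residue at `0` -/
noncomputable def r0 (p f c : ℕ) (ψ : ℕ → Ω) : Ω :=
  (f : Ω)⁻¹ * ∑ t ∈ (range (f * p)).filter (fun t => p ∣ t), ((c * t / (f * p) : ℕ) : Ω) * ψ t

/-- the polynomial `(z^(p-1) - 1) λ` -/
noncomputable def Lam0 (p f c : ℕ) (ψ : ℕ → Ω) : Polynomial Ω :=
  ∑ j ∈ range (p - 1), C ((f : Ω) ^ j * SS p f c ψ j) * X ^ j + C (r0 p f c ψ) * X ^ (p - 2)

theorem Lam0_coeff (p f c : ℕ) (ψ : ℕ → Ω) (j : ℕ) (hj : j < p - 2) :
    (Lam0 p f c ψ).coeff j = (f : Ω) ^ j * SS p f c ψ j := by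
  unfold Lam0
  rw [coeff_add, finsetSum_coeff, coeff_C_mul_X_pow, if_neg (by omega), add_zero]
  rw [sum_eq_single j]
  · rw [coeff_C_mul_X_pow, if_pos rfl]
  · intro b _ hb
    rw [coeff_C_mul_X_pow, if_neg (Ne.symm hb)]
  · intro h
    exact absurd (mem_range.mpr (by omega)) h

theorem Lam0_natDegree (p f c : ℕ) (ψ : ℕ → Ω) (hp : 2 ≤ p) :
    (Lam0 p f c ψ).natDegree < p - 1 := by
  rw [Nat.lt_iff_le_pred (by omega)]
  unfold Lam0
  refine natDegree_add_le_of_degree_le ?_ ?_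
  · refine natDegree_sum_le_of_forall_le _ _ fun j hj => ?_
    rw [mem_range] at hj
    exact (natDegree_C_mul_X_pow_le _ _).trans (by omega)
  · exact (natDegree_C_mul_X_pow_le _ _).trans (by omega)

theorem aeval_Lam0 {p : ℕ} [Fact p.Prime] [CharP Ω p] {K : Type*} [Field K] [Algebra Ω K]
    (f c : ℕ) (hpf : ¬ p ∣ f) (ψ : ℕ → Ω) (z : K)
    (hz : ∀ t : ℕ, (f : K) * z - (t : K) ≠ 0) (hz0 : z ≠ 0) (hz1 : z ^ (p - 1) - 1 ≠ 0) :
    aeval z (Lam0 p f c ψ) = (z ^ (p - 1) - 1) *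
      (∑ t ∈ range (f * p), ((c * t / (f * p) : ℕ) : K) *
        (algebraMap Ω K (ψ t) / ((f : K) * z - (t : K)))
        + algebraMap Ω K (r0 p f c ψ) / (z ^ p - z)) := by
  have hp : p.Prime := Fact.out
  have hp2 := hp.two_le
  have : CharP K p := charP_of_injective_algebraMap (algebraMap Ω K).injective p
  have hf0 : (f : K) ≠ 0 := fun h => hpf ((CharP.cast_eq_zero_iff K p f).mp h)
  have hfO : (f : Ω) ≠ 0 := fun h => hpf ((CharP.cast_eq_zero_iff Ω p f).mp h)
  have hzp : z ^ p - z = z * (z ^ (p - 1) - 1) := by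
    obtain ⟨k, rfl⟩ : ∃ k, p = k + 1 := ⟨p - 1, by omega⟩
    rw [Nat.add_sub_cancel]
    ring
  have hA : ∑ t ∈ (range (f * p)).filter (fun t => p ∣ t), ((c * t / (f * p) : ℕ) : K) *
        (algebraMap Ω K (ψ t) / ((f : K) * z - (t : K))) = algebraMap Ω K (r0 p f c ψ) / z := by
    unfold r0
    rw [map_mul, map_inv₀, map_natCast, map_sum, mul_sum, sum_div]
    refine sum_congr rfl fun t ht => ?_
    rw [mem_filter] at ht
    have ht0 : (t : K) = 0 := (CharP.cast_eq_zero_iff K p t).mpr ht.2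
    rw [ht0, sub_zero, map_mul, map_natCast]
    field_simp
  have hB : (z ^ (p - 1) - 1) * ∑ t ∈ (range (f * p)).filter (fun t => ¬ p ∣ t),
      ((c * t / (f * p) : ℕ) : K) * (algebraMap Ω K (ψ t) / ((f : K) * z - (t : K))) =
      aeval z (∑ j ∈ range (p - 1), C ((f : Ω) ^ j * SS p f c ψ j) * X ^ j) := by
    rw [map_sum]
    unfold SS
    have h1 : ∀ j ∈ range (p - 1), aeval z (C ((f : Ω) ^ j *
        ∑ t ∈ (range (f * p)).filter (fun t => ¬ p ∣ t),
          ((c * t / (f * p) : ℕ) : Ω) * ψ t * ((t : Ω)⁻¹) ^ (j + 1)) * X ^ j) =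
        ∑ t ∈ (range (f * p)).filter (fun t => ¬ p ∣ t), ((c * t / (f * p) : ℕ) : K) *
          (algebraMap Ω K (ψ t) * ((f : K) ^ j * ((t : K)⁻¹) ^ (j + 1) * z ^ j)) := by
      intro j _
      rw [map_mul, aeval_C, map_pow, aeval_X, map_mul, map_pow, map_natCast, map_sum, mul_sum,
        sum_mul]
      refine sum_congr rfl fun t _ => ?_
      rw [map_mul, map_mul, map_pow, map_inv₀, map_natCast, map_natCast]
      ring
    rw [sum_congr rfl h1, sum_comm, mul_sum]
    refine sum_congr rfl fun t ht => ?_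
    rw [mem_filter] at ht
    have ht0 : (t : K) ≠ 0 := fun h => ht.2 ((CharP.cast_eq_zero_iff K p t).mp h)
    rw [← mul_sum, ← mul_sum]
    have h2 : ∑ j ∈ range (p - 1), (f : K) ^ j * ((t : K)⁻¹) ^ (j + 1) * z ^ j =
        (z ^ (p - 1) - 1) / ((f : K) * z - (t : K)) := by
      rw [eq_div_iff (hz t)]
      have h3 := geom_sum_mul ((f : K) * (t : K)⁻¹ * z) (p - 1)
      have h4 : ((f : K) * (t : K)⁻¹ * z) ^ (p - 1) = z ^ (p - 1) := by
        rw [mul_pow, mul_pow, inv_pow]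
        have h5 : ∀ n : ℕ, (n : K) ≠ 0 → (n : K) ^ (p - 1) = 1 := by
          intro n hn
          have h6 : ((n : ZMod p)) ^ (p - 1) = 1 := ZMod.pow_card_sub_one_eq_one (fun h => hn (by
            rw [CharP.cast_eq_zero_iff K p, ← ZMod.natCast_eq_zero_iff]
            exact h))
          have h7 := congrArg (ZMod.castHom (dvd_refl p) K) h6
          rw [map_pow, map_natCast, map_one] at h7
          exact h7
        rw [h5 f hf0, h5 t ht0, inv_one, one_mul, one_mul]
      rw [h4] at h3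
      rw [← h3, sum_mul, sum_mul]
      refine sum_congr rfl fun j _ => ?_
      rw [mul_pow, mul_pow, pow_succ (t : K)⁻¹ j]
      field_simp
    rw [h2]
    ring
  unfold Lam0
  rw [map_add, ← hB, map_mul, aeval_C, map_pow, aeval_X,
    ← sum_filter_add_sum_filter_not (range (f * p)) (fun t => p ∣ t), hA, hzp]
  have h6 : z ^ (p - 2) = (z ^ (p - 1) - 1) * (1 / z + 1 / (z * (z ^ (p - 1) - 1))) := by
    have h7 : z ^ (p - 1) = z ^ (p - 2) * z := by
      rw [← pow_succ]
      congr 1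
      omega
    field_simp
    rw [h7]
    ring
  rw [h6]
  field_simp
  ring

/-- the weights `W_h = ψ(h) (1 - c [c ∣ h])` -/
def Wt {R : Type*} [CommRing R] (c : ℕ) (ψ : ℕ → R) (h : ℕ) : R :=
  ψ h * (if c ∣ h then 1 - (c : R) else 1)

/-- the difference equation, in a field extension -/
theorem diff_eq {p : ℕ} [Fact p.Prime] [CharP Ω p] {K : Type*} [Field K] [Algebra Ω K]
    (f c : ℕ) (hf : 2 ≤ f) (hc : 2 ≤ c) (hcf : c.Coprime f) (hcp : c < p) (hpf : ¬ p ∣ f)
    (ψ : DirichletCharacter Ω f) (z : K) :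
    ∑ t ∈ range (f * p), ((c * t / (f * p) : ℕ) : K) *
        (algebraMap Ω K (ψ (t : ZMod f)) / ((f : K) * (z + 1) - (t : K)))
      - ∑ t ∈ range (f * p), ((c * t / (f * p) : ℕ) : K) *
        (algebraMap Ω K (ψ (t : ZMod f)) / ((f : K) * z - (t : K)))
      = algebraMap Ω K ((c : Ω) * ψ (-1) * (ψ (c : ZMod f))⁻¹) *
        ∑ h ∈ Ioo 0 (c * f), algebraMap Ω K (Wt c (fun h => ψ (h : ZMod f)) h) /
          (((c * f : ℕ) : K) * z + (h : K)) := by
  have hp : p.Prime := Fact.out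
  have hp2 := hp.two_le
  have : CharP K p := charP_of_injective_algebraMap (algebraMap Ω K).injective p
  have hf0 : (f : K) ≠ 0 := fun h => hpf ((CharP.cast_eq_zero_iff K p f).mp h)
  have hc0 : (c : K) ≠ 0 := fun h => absurd (Nat.le_of_dvd (by omega)
    ((CharP.cast_eq_zero_iff K p c).mp h)) (by omega)
  have hcop : c.Coprime (f * p) := by
    refine Nat.Coprime.mul_right hcf ?_
    rw [Nat.coprime_comm, hp.coprime_iff_not_dvd]
    intro h
    exact absurd (Nat.le_of_dvd (by omega) h) (by omega)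
  have hcu : IsUnit (c : ZMod f) := (ZMod.isUnit_iff_coprime c f).mpr hcf
  have hψc : ψ (c : ZMod f) ≠ 0 := (hcu.map ψ).ne_zero
  have hψ1 : ψ (-1) * ψ (-1) = 1 := by
    rw [← map_mul]
    norm_num
  set κ : Ω := (c : Ω) * ψ (-1) * (ψ (c : ZMod f))⁻¹ with hκ
  have key := tele (K := K) (fun u => algebraMap Ω K (ψ (u : ZMod f)) / ((f : K) * z - (u : K)))
    (fun h => algebraMap Ω K κ * (algebraMap Ω K (ψ (h : ZMod f)) / (((c * f : ℕ) : K) * z + (h : K))))
    c f (f * p) (by omega) (by omega) hcop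
    (by
      rw [mul_comm c f]
      exact Nat.mul_lt_mul_of_pos_left hcp (by omega))
    (fun t => algebraMap Ω K (ψ (t : ZMod f)) / ((f : K) * (z + 1) - (t : K)))
    (by
      intro u
      simp only [Nat.cast_add, ZMod.natCast_self, add_zero]
      congr 1
      ring)
    (by
      intro u h hd
      have e1 : (c : ZMod f) * (u : ZMod f) + (h : ZMod f) = 0 := by
        have : ((c * u + h : ℕ) : ZMod f) = 0 := by
          rw [ZMod.natCast_eq_zero_iff]
          exact (dvd_mul_right f p).trans hd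
        exact_mod_cast this
      have e2 : (c : K) * (u : K) + (h : K) = 0 := by
        have : ((c * u + h : ℕ) : K) = 0 := by
          rw [CharP.cast_eq_zero_iff K p]
          exact (dvd_mul_left p f).trans hd
        exact_mod_cast this
      have e3 : ψ (h : ZMod f) = ψ (-1) * (ψ (c : ZMod f) * ψ (u : ZMod f)) := by
        rw [← map_mul, ← map_mul]
        congr 1
        rw [eq_neg_of_add_eq_zero_right e1]
        ring
      have e4 : κ * ψ (h : ZMod f) = (c : Ω) * ψ (u : ZMod f) := by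
        rw [hκ, e3]
        calc (c : Ω) * ψ (-1) * (ψ (c : ZMod f))⁻¹ * (ψ (-1) * (ψ (c : ZMod f) * ψ (u : ZMod f)))
            = (c : Ω) * (ψ (-1) * ψ (-1)) * ((ψ (c : ZMod f))⁻¹ * ψ (c : ZMod f)) *
                ψ (u : ZMod f) := by ring
          _ = _ := by rw [hψ1, inv_mul_cancel₀ hψc]; ring
      have e5 : ((c * f : ℕ) : K) * z + (h : K) = (c : K) * ((f : K) * z - (u : K)) := by
        rw [eq_neg_of_add_eq_zero_right e2]
        push_cast
        ring
      show algebraMap Ω K (ψ (u : ZMod f)) / ((f : K) * z - (u : K)) = _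
      have e6 : algebraMap Ω K κ * algebraMap Ω K (ψ (h : ZMod f)) =
          (c : K) * algebraMap Ω K (ψ (u : ZMod f)) := by
        rw [← map_mul (algebraMap Ω K), e4, map_mul (algebraMap Ω K), map_natCast (algebraMap Ω K)]
      rw [← mul_div_assoc, e6, e5, mul_div_mul_left _ _ hc0])
  rw [key]
  -- right side
  have hcf1 : 1 < f := by omega
  have : Fact (1 < f) := ⟨hcf1⟩
  have hq : 0 < c * f := by positivity
  obtain ⟨q', hq'⟩ : ∃ q', c * f = q' + 1 := ⟨c * f - 1, by omega⟩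
  have hlast : algebraMap Ω K κ * (algebraMap Ω K (ψ ((c * f : ℕ) : ZMod f)) /
      (((c * f : ℕ) : K) * z + ((c * f : ℕ) : K))) = 0 := by
    have : ((c * f : ℕ) : ZMod f) = 0 := by
      rw [ZMod.natCast_eq_zero_iff]
      exact dvd_mul_left f c
    rw [this, MulChar.map_zero, map_zero, zero_div, mul_zero]
  have s1 : ∑ s ∈ Ioc 0 f, algebraMap Ω K κ * (algebraMap Ω K (ψ ((c * s : ℕ) : ZMod f)) /
      (((c * f : ℕ) : K) * z + ((c * s : ℕ) : K))) =
      ∑ h ∈ Ioc 0 (c * f), if c ∣ h then algebraMap Ω K κ * (algebraMap Ω K (ψ (h : ZMod f)) /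
        (((c * f : ℕ) : K) * z + (h : K))) else 0 := by
    rw [← sum_filter]
    refine sum_bij (fun s _ => c * s) ?_ ?_ ?_ ?_
    · intro s hs
      rw [mem_Ioc] at hs
      rw [mem_filter, mem_Ioc]
      exact ⟨⟨by have := hs.1; positivity, Nat.mul_le_mul_left c hs.2⟩, dvd_mul_right c s⟩
    · intro a _ b _ h
      exact Nat.eq_of_mul_eq_mul_left (by omega) h
    · intro h hh
      rw [mem_filter, mem_Ioc] at hh
      obtain ⟨⟨h1, h2⟩, s, rfl⟩ := hh
      refine ⟨s, ?_, rfl⟩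
      rw [mem_Ioc]
      exact ⟨Nat.pos_of_ne_zero (by rintro rfl; simp at h1), Nat.le_of_mul_le_mul_left h2 (by omega)⟩
    · intro s _
      rfl
  rw [s1, mul_sum, ← sum_sub_distrib, mul_sum]
  have hIoc : Ioc 0 (c * f) = insert (c * f) (Ioo 0 (c * f)) := by
    ext x
    rw [mem_Ioc, mem_insert, mem_Ioo]
    omega
  rw [hIoc, sum_insert (by simp)]
  have hl2 : algebraMap Ω K κ * (algebraMap Ω K (ψ ((c * f : ℕ) : ZMod f)) /
      (((c * f : ℕ) : K) * z + ((c * f : ℕ) : K))) - (c : K) * (if c ∣ c * f then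
      algebraMap Ω K κ * (algebraMap Ω K (ψ ((c * f : ℕ) : ZMod f)) /
      (((c * f : ℕ) : K) * z + ((c * f : ℕ) : K))) else 0) = 0 := by
    rw [hlast]
    simp
  rw [hl2, zero_add]
  refine sum_congr rfl fun h _ => ?_
  unfold Wt
  split_ifs
  · have e : algebraMap Ω K ((fun h : ℕ => ψ (h : ZMod f)) h * (1 - (c : Ω))) =
        algebraMap Ω K (ψ (h : ZMod f)) * (1 - (c : K)) := by
      rw [map_mul, map_sub, map_one, map_natCast]
    rw [e]
    ring
  · rw [mul_one, mul_zero, sub_zero]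

theorem nq_eval {K : Type*} [Field K] [Algebra Ω K] (q : ℕ) (W : ℕ → Ω) (z : K)
    (hz : ∀ h ∈ Ioo 0 q, (q : K) * z + (h : K) ≠ 0) :
    aeval z (nq q W) = aeval z (dq Ω q) *
      ∑ h ∈ Ioo 0 q, algebraMap Ω K (W h) / ((q : K) * z + (h : K)) := by
  unfold nq dq
  rw [map_sum, mul_sum]
  refine sum_congr rfl fun h hh => ?_
  rw [map_mul, aeval_C, map_prod, map_prod, ← mul_prod_erase _ _ hh]
  have h1 : aeval z (C (q : Ω) * X + C (h : Ω)) = (q : K) * z + (h : K) := by
    rw [map_add, map_mul, aeval_C, aeval_C, aeval_X, map_natCast, map_natCast]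
  rw [h1]
  have := hz h hh
  field_simp

theorem Lam0_LamOK {p : ℕ} [Fact p.Prime] [CharP Ω p] (f c : ℕ) (hf : 2 ≤ f) (hc : 2 ≤ c)
    (hcf : c.Coprime f) (hcp : c < p) (hpf : ¬ p ∣ f) (ψ : DirichletCharacter Ω f) :
    LamOK p (c * f) (Wt c (fun h => ψ (h : ZMod f)))
      (C ((c : Ω) * ψ (-1) * (ψ (c : ZMod f))⁻¹)⁻¹ * Lam0 p f c (fun h => ψ (h : ZMod f))) := by
  have hp : p.Prime := Fact.out
  have hp2 := hp.two_le
  have hfO : (f : Ω) ≠ 0 := fun h => hpf ((CharP.cast_eq_zero_iff Ω p f).mp h)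
  have hcO : (c : Ω) ≠ 0 := fun h => absurd (Nat.le_of_dvd (by omega)
    ((CharP.cast_eq_zero_iff Ω p c).mp h)) (by omega)
  have hψc : ψ (c : ZMod f) ≠ 0 := (((ZMod.isUnit_iff_coprime c f).mpr hcf).map ψ).ne_zero
  have hψ1 : ψ (-1) ≠ 0 := by
    intro h
    have h1 : ψ (-1) * ψ (-1) = 1 := by
      rw [← map_mul]
      norm_num
    rw [h] at h1
    simp at h1
  set κ : Ω := (c : Ω) * ψ (-1) * (ψ (c : ZMod f))⁻¹ with hκ
  have hκ0 : κ ≠ 0 := mul_ne_zero (mul_ne_zero hcO hψ1) (inv_ne_zero hψc)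
  refine ⟨lt_of_le_of_lt (natDegree_C_mul_le _ _) (Lam0_natDegree p f c _ hp2), ?_⟩
  set K := FractionRing (Polynomial Ω) with hK
  set z : K := algebraMap (Polynomial Ω) K X with hzdef
  have hae : ∀ P : Polynomial Ω, aeval z P = algebraMap (Polynomial Ω) K P := by
    intro P
    rw [hzdef, aeval_algebraMap_apply, aeval_X_left, AlgHom.id_apply]
  have hinj : Function.Injective (algebraMap (Polynomial Ω) K) :=
    IsFractionRing.injective (Polynomial Ω) K
  have hne : ∀ P : Polynomial Ω, P ≠ 0 → aeval z P ≠ 0 := by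
    intro P hP h
    rw [hae] at h
    exact hP (hinj (by rw [h, map_zero]))
  have : CharP K p := charP_of_injective_algebraMap (algebraMap Ω K).injective p
  have hlin : ∀ a b : ℕ, (a : K) ≠ 0 → (a : K) * z + (b : K) ≠ 0 := by
    intro a b ha
    have haO : (a : Ω) ≠ 0 := fun h => ha (by
      rw [CharP.cast_eq_zero_iff K p]
      exact (CharP.cast_eq_zero_iff Ω p a).mp h)
    have h1 : (C (a : Ω) * X + C (b : Ω) : Polynomial Ω) ≠ 0 := by
      intro h
      have h2 := congrArg (fun P => P.coeff 1) h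
      simp at h2
      exact haO h2
    have h2 := hne _ h1
    rwa [map_add, map_mul, aeval_C, aeval_C, aeval_X, map_natCast, map_natCast] at h2
  have hlin' : ∀ (a t : ℕ), (a : K) ≠ 0 → (a : K) * z - (t : K) ≠ 0 := by
    intro a t ha
    have h1 := hlin a ((p - 1) * t) ha
    have h2 : (((p - 1 : ℕ)) : K) = -1 := by
      rw [Nat.cast_sub (by omega), CharP.cast_eq_zero K p]
      simp
    rw [Nat.cast_mul, h2] at h1
    rwa [sub_eq_add_neg, ← neg_one_mul]
  have hfK : (f : K) ≠ 0 := fun h => hpf ((CharP.cast_eq_zero_iff K p f).mp h)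
  have hqK : ((c * f : ℕ) : K) ≠ 0 := by
    rw [Nat.cast_mul]
    exact mul_ne_zero (fun h => absurd (Nat.le_of_dvd (by omega)
      ((CharP.cast_eq_zero_iff K p c).mp h)) (by omega)) hfK
  have hz0 : z ≠ 0 := by
    have := hlin 1 0 (by simp)
    simpa using this
  have hz0' : z + 1 ≠ 0 := by
    have := hlin 1 1 (by simp)
    simpa using this
  have hcompX : aeval (z + 1) = (aeval z).comp (aeval (X + 1 : Polynomial Ω)) := by
    apply algHom_ext
    simp
  have hne' : ∀ P : Polynomial Ω, P ≠ 0 → aeval (z + 1) P ≠ 0 := by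
    intro P hP
    rw [hcompX]
    show aeval z (aeval (X + 1 : Polynomial Ω) P) ≠ 0
    apply hne
    intro h
    apply hP
    have h1 : P.comp (X + C 1) = 0 := by
      rw [← h, map_one]
      rfl
    have h2 : (P.comp (X + C 1)).comp (X - C 1) = P := by
      rw [comp_assoc]
      simp
    rw [← h2, h1, zero_comp]
  have hXp : (X ^ (p - 1) - 1 : Polynomial Ω) ≠ 0 := by
    have := X_pow_sub_C_ne_zero (R := Ω) (n := p - 1) (by omega) 1
    rwa [map_one] at this
  have hz1 : z ^ (p - 1) - 1 ≠ 0 := by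
    have := hne _ hXp
    rwa [map_sub, map_pow, aeval_X, map_one] at this
  have hz1' : (z + 1) ^ (p - 1) - 1 ≠ 0 := by
    have := hne' _ hXp
    rwa [map_sub, map_pow, aeval_X, map_one] at this
  set L := Lam0 p f c (fun h => ψ (h : ZMod f)) with hL
  have e1 := aeval_Lam0 (K := K) f c hpf (fun h => ψ (h : ZMod f)) z (fun t => hlin' f t hfK) hz0 hz1
  have e2 := aeval_Lam0 (K := K) f c hpf (fun h => ψ (h : ZMod f)) (z + 1) (fun t => by
    have h1 := hlin' f t hfK
    obtain ⟨s, hs⟩ : ∃ s : ℕ, (s : K) = (t : K) - (f : K) := by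
      refine ⟨t + (p - 1) * f, ?_⟩
      rw [Nat.cast_add, Nat.cast_mul, Nat.cast_sub (by omega), CharP.cast_eq_zero K p]
      push_cast
      ring
    have h2 := hlin' f s hfK
    rw [hs] at h2
    intro h
    apply h2
    rw [← h]
    ring) hz0' hz1'
  rw [← hL] at e1 e2
  have hfrob : (z + 1) ^ p - (z + 1) = z ^ p - z := by
    rw [add_pow_char]
    ring
  rw [hfrob] at e2
  have hd := diff_eq (K := K) f c hf hc hcf hcp hpf ψ z
  rw [← hκ] at hd
  have hnq := nq_eval (K := K) (c * f) (Wt c (fun h => ψ (h : ZMod f))) z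
    (fun h _ => hlin (c * f) h hqK)
  apply hinj
  rw [← hae, ← hae]
  have hcomp : aeval z ((C κ⁻¹ * L).comp (X + 1)) = (algebraMap Ω K κ)⁻¹ * aeval (z + 1) L := by
    have h1 : aeval z ((C κ⁻¹ * L).comp (X + 1)) = aeval (z + 1) (C κ⁻¹ * L) := by
      rw [hcompX]
      rfl
    rw [h1, map_mul, aeval_C, map_inv₀]
  have hkK : algebraMap Ω K κ ≠ 0 := by
    rw [Ne, map_eq_zero]
    exact hκ0
  set S := ∑ h ∈ Ioo 0 (c * f), algebraMap Ω K (Wt c (fun h => ψ (h : ZMod f)) h) /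
          (((c * f : ℕ) : K) * z + (h : K)) with hS
  set A := ∑ t ∈ range (f * p), ((c * t / (f * p) : ℕ) : K) *
        (algebraMap Ω K (ψ (t : ZMod f)) / ((f : K) * (z + 1) - (t : K))) with hA
  set B := ∑ t ∈ range (f * p), ((c * t / (f * p) : ℕ) : K) *
        (algebraMap Ω K (ψ (t : ZMod f)) / ((f : K) * z - (t : K))) with hB
  have hAB : A = B + algebraMap Ω K κ * S := by
    rw [← hd]
    ring
  have e1' : aeval z L = (z ^ (p - 1) - 1) * (B + algebraMap Ω K (r0 p f c (fun h => ψ (h : ZMod f))) /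
      (z ^ p - z)) := e1
  have e2' : aeval (z + 1) L = ((z + 1) ^ (p - 1) - 1) *
      (A + algebraMap Ω K (r0 p f c (fun h => ψ (h : ZMod f))) / (z ^ p - z)) := e2
  have hX1 : aeval z (X ^ (p - 1) - 1 : Polynomial Ω) = z ^ (p - 1) - 1 := by
    rw [map_sub, map_pow, aeval_X, map_one]
  have hX2 : aeval z ((X + 1) ^ (p - 1) - 1 : Polynomial Ω) = (z + 1) ^ (p - 1) - 1 := by
    rw [map_sub, map_pow, map_add, aeval_X, map_one]
  clear_value κ
  rw [map_mul, map_sub, map_mul, map_mul, hcomp, hX1, hX2, map_mul (aeval z) (C κ⁻¹) L, aeval_C,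
    map_inv₀, e1', e2', hAB, map_mul, map_mul, hX1, hX2, hnq]
  generalize algebraMap Ω K (r0 p f c (fun h => ψ (h : ZMod f))) / (z ^ p - z) = R
  generalize algebraMap Ω K κ = k at hkK ⊢
  generalize (z + 1) ^ (p - 1) - 1 = Y1
  generalize z ^ (p - 1) - 1 = Y2
  have hk : k⁻¹ * k = 1 := inv_mul_cancel₀ hkK
  linear_combination (aeval z (dq Ω (c * f)) * Y1 * Y2 * S) * hk

/-- **The bridge.** -/
theorem exists_lam {p : ℕ} [Fact p.Prime] [CharP Ω p] (f c : ℕ) (hf : 2 ≤ f) (hc : 2 ≤ c)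
    (hcf : c.Coprime f) (hcp : c < p) (hpf : ¬ p ∣ f) (ψ : DirichletCharacter Ω f) :
    ∃ (u : Ω) (Lam : Polynomial Ω), u ≠ 0 ∧ LamOK p (c * f) (Wt c (fun h => ψ (h : ZMod f))) Lam ∧
      ∀ j < p - 2, Lam.coeff j = u * (f : Ω) ^ j * SS p f c (fun h => ψ (h : ZMod f)) j := by
  have hcO : (c : Ω) ≠ 0 := fun h => absurd (Nat.le_of_dvd (by omega)
    ((CharP.cast_eq_zero_iff Ω p c).mp h)) (by omega)
  have hψc : ψ (c : ZMod f) ≠ 0 := (((ZMod.isUnit_iff_coprime c f).mpr hcf).map ψ).ne_zero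
  have hψ1 : ψ (-1) ≠ 0 := by
    intro h
    have h1 : ψ (-1) * ψ (-1) = 1 := by
      rw [← map_mul]
      norm_num
    rw [h] at h1
    simp at h1
  refine ⟨((c : Ω) * ψ (-1) * (ψ (c : ZMod f))⁻¹)⁻¹, _, inv_ne_zero (mul_ne_zero
    (mul_ne_zero hcO hψ1) (inv_ne_zero hψc)), Lam0_LamOK f c hf hc hcf hcp hpf ψ, ?_⟩
  intro j hj
  rw [coeff_C_mul, Lam0_coeff p f c _ j hj]
  ring

end

end H78AB
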