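import Pool.Agent.H78.AB.LamB
import Pool.Agent.H9.AB.DefsM

/-!
# Project AB, bridge (A) to (B), second part

* `badW_of_SS` : vanishing of the twisted sums in a window gives `BadW`.
* `sum_TM` : the sum over `b = 1, …, c - 1` of the sums over `TM m M b` is the sum over the `t`
  prime to `m` with weights `⌊c t / m⌋`.
* `SS_eq_TM`, `SS_eq_zero` : the twisted sums in terms of the sets `TM (f * p) M b`.
-/

namespace H78AB

open Polynomial Finset H22GW H9AB NumberField

theorem badW_of_SS {k : Type*} [Field k] [NumberField k] {p : ℕ} [Fact p.Prime] (f c w V : ℕ)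
    (hf : 2 ≤ f) (hc : 2 ≤ c) (hcf : c.Coprime f) (hcp : c < p) (hpf : ¬ p ∣ f)
    (ψ₀ : DirichletCharacter (𝓞 k) f) (Ω : Type) [Field Ω] [CharP Ω p] (φ : 𝓞 k →+* Ω)
    (hV : V ≤ p - 2)
    (h : ∀ j : ℕ, w ≤ j → j < V → SS p f c (fun t => φ (ψ₀ (t : ZMod f))) j = 0) :
    BadW k (c * f) (Wt c (fun h => ψ₀ (h : ZMod f))) w V p := by
  obtain ⟨u, Lam, _, hL, hc'⟩ := exists_lam f c hf hc hcf hcp hpf (ψ₀.ringHomComp φ)
  refine ⟨Ω, inferInstance, inferInstance, φ, Lam, ?_, ?_⟩
  · have e : (fun h => φ (Wt c (fun h => ψ₀ (h : ZMod f)) h)) =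
        Wt c (fun h => (ψ₀.ringHomComp φ) (h : ZMod f)) := by
      funext h
      unfold Wt
      rw [map_mul]
      congr 1
      split_ifs
      · rw [map_sub, map_one, map_natCast]
      · rw [map_one]
    rw [e]
    exact hL
  · intro j hj hj'
    rw [hc' j (by omega)]
    have := h j hj hj'
    have e : SS p f c (fun h => (ψ₀.ringHomComp φ) (h : ZMod f)) j =
      SS p f c (fun t => φ (ψ₀ (t : ZMod f))) j := rfl
    rw [e, this, mul_zero]

theorem Wt_one {R : Type*} [CommRing R] (c f : ℕ) (hc : 2 ≤ c) (ψ : DirichletCharacter R f) :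
    Wt c (fun h => ψ (h : ZMod f)) 1 = 1 := by
  unfold Wt
  rw [if_neg, mul_one]
  · simp
  · intro h
    have := Nat.le_of_dvd one_pos h
    omega

theorem count_TM (m t : ℕ) (hm : 0 < m) (ht : t < m) (htm : t.Coprime m) (c : ℕ) (hc : 1 ≤ c)
    (hcm : c < m) : c * t / m = ∑ b ∈ Ico 1 c, if m < t + (b * t) % m then 1 else 0 := by
  induction c, hc using Nat.le_induction with
  | base =>
    rw [Ico_self, sum_empty, one_mul, Nat.div_eq_of_lt ht]
  | succ c hc ih =>
    rw [sum_Ico_succ_top hc, ← ih (by omega), add_mul, one_mul, Nat.add_div hm, Nat.div_eq_of_lt ht,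
      add_zero, Nat.mod_eq_of_lt ht]
    congr 1
    have hne : c * t % m + t ≠ m := by
      intro h
      have h1 : (c * t + t) % m = 0 := by
        rw [Nat.add_mod, Nat.mod_eq_of_lt ht, h, Nat.mod_self]
      have h2 : m ∣ (c + 1) * t := by
        rw [add_mul, one_mul]
        exact Nat.dvd_of_mod_eq_zero h1
      have h3 : m ∣ c + 1 := htm.symm.dvd_of_dvd_mul_right h2
      exact absurd (Nat.le_of_dvd (by omega) h3) (by omega)
    by_cases h : m ≤ c * t % m + t
    · rw [if_pos h, if_pos (by omega)]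
    · rw [if_neg h, if_neg (by omega)]

theorem sum_units {A : Type*} [AddCommMonoid A] (m : ℕ) [NeZero m] (g : ℕ → A) :
    ∑ u : (ZMod m)ˣ, g (u : ZMod m).val = ∑ t ∈ (range m).filter (fun t => t.Coprime m), g t := by
  refine sum_bij (fun (u : (ZMod m)ˣ) (_ : u ∈ univ) => (u : ZMod m).val) ?_ ?_ ?_ ?_
  · intro u _
    rw [mem_filter, mem_range]
    exact ⟨ZMod.val_lt _, ZMod.val_coe_unit_coprime u⟩
  · intro a _ b _ h
    exact Units.ext (ZMod.val_injective m h)
  · intro t ht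
    rw [mem_filter, mem_range] at ht
    refine ⟨ZMod.unitOfCoprime t ht.2, mem_univ _, ?_⟩
    rw [ZMod.coe_unitOfCoprime, ZMod.val_cast_of_lt ht.1]
  · intro u _
    rfl

theorem sum_TM {A : Type*} [AddCommMonoid A] (m : ℕ) [NeZero m] (M : Type*) [Field M]
    [NumberField M] [IsCyclotomicExtension {m} ℚ M] (c : ℕ) (hc : 1 ≤ c) (hcm : c < m) (g : ℕ → A) :
    ∑ b ∈ Ico 1 c, ∑ σ ∈ TM m M b, g (IsCyclotomicExtension.Rat.galEquivZMod m M σ).val.val =
      ∑ t ∈ (range m).filter (fun t => t.Coprime m), (c * t / m) • g t := by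
  classical
  have h1 : ∀ b ∈ Ico 1 c, ∑ σ ∈ TM m M b,
      g (IsCyclotomicExtension.Rat.galEquivZMod m M σ).val.val =
      ∑ t ∈ (range m).filter (fun t => t.Coprime m), if m < t + (b * t) % m then g t else 0 := by
    intro b _
    have h2 : TM m M b = univ.filter (fun σ => m <
        (IsCyclotomicExtension.Rat.galEquivZMod m M σ).val.val
        + (b * (IsCyclotomicExtension.Rat.galEquivZMod m M σ).val.val) % m) := by
      ext σ
      rw [mem_TM, mem_filter]
      simp
    rw [h2, sum_filter, ← sum_units m (fun t => if m < t + (b * t) % m then g t else 0)]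
    exact Fintype.sum_equiv (IsCyclotomicExtension.Rat.galEquivZMod m M).toEquiv _ _
      fun σ => rfl
  rw [sum_congr rfl h1, sum_comm]
  refine sum_congr rfl fun t ht => ?_
  rw [mem_filter, mem_range] at ht
  rw [count_TM m t (NeZero.pos m) ht.1 ht.2 c hc hcm, sum_smul]
  refine sum_congr rfl fun b _ => ?_
  split_ifs <;> simp

/-- the twisted sums in terms of the sets `TM (f * p) M b` -/
theorem SS_eq_TM {Ω : Type*} [Field Ω] {p : ℕ} [Fact p.Prime] (f c : ℕ)
    [NeZero (f * p)] (M : Type*) [Field M] [NumberField M] [IsCyclotomicExtension {f * p} ℚ M]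
    (hc : 1 ≤ c) (hcp : c < f * p) (ψ : DirichletCharacter Ω f) (j : ℕ) :
    SS p f c (fun t => ψ (t : ZMod f)) j = ∑ b ∈ Ico 1 c, ∑ σ ∈ TM (f * p) M b,
      ψ (((IsCyclotomicExtension.Rat.galEquivZMod (f * p) M σ).val.val : ℕ) : ZMod f) *
        ((((IsCyclotomicExtension.Rat.galEquivZMod (f * p) M σ).val.val : ℕ) : Ω)⁻¹) ^ (j + 1) := by
  have hp : p.Prime := Fact.out
  rw [sum_TM (f * p) M c hc hcp (fun t => ψ (t : ZMod f) * ((t : Ω)⁻¹) ^ (j + 1))]
  unfold SS
  have h1 : (range (f * p)).filter (fun t => t.Coprime (f * p)) ⊆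
      (range (f * p)).filter (fun t => ¬ p ∣ t) := by
    intro t ht
    rw [mem_filter] at ht ⊢
    refine ⟨ht.1, fun h => ?_⟩
    have h2 : t.Coprime p := Nat.Coprime.coprime_mul_left_right ht.2
    exact (Nat.coprime_comm.mp h2 |> hp.coprime_iff_not_dvd.mp) h
  rw [← sum_subset h1]
  · refine sum_congr rfl fun t _ => ?_
    rw [nsmul_eq_mul]
    ring
  · intro t ht hnt
    rw [mem_filter] at ht hnt
    have h2 : ¬ t.Coprime f := by
      intro h
      apply hnt
      refine ⟨ht.1, Nat.Coprime.mul_right h ?_⟩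
      rw [Nat.coprime_comm]
      exact hp.coprime_iff_not_dvd.mpr ht.2
    have h3 : ψ (t : ZMod f) = 0 := by
      apply ψ.map_nonunit
      rwa [ZMod.isUnit_iff_coprime]
    simp only [h3, mul_zero, zero_mul]

/-- if all the sums over `TM (f * p) M b`, `1 ≤ b < c`, vanish then `SS` vanishes -/
theorem SS_eq_zero {Ω : Type*} [Field Ω] {p : ℕ} [Fact p.Prime] (f c : ℕ)
    [NeZero (f * p)] (M : Type*) [Field M] [NumberField M] [IsCyclotomicExtension {f * p} ℚ M]
    (hc : 1 ≤ c) (hcp : c < f * p) (ψ : DirichletCharacter Ω f) (j : ℕ)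
    (h : ∀ b, 1 ≤ b → b < c → ∑ σ ∈ TM (f * p) M b,
      ψ (((IsCyclotomicExtension.Rat.galEquivZMod (f * p) M σ).val.val : ℕ) : ZMod f) *
        ((((IsCyclotomicExtension.Rat.galEquivZMod (f * p) M σ).val.val : ℕ) : Ω)⁻¹) ^ (j + 1) = 0) :
    SS p f c (fun t => ψ (t : ZMod f)) j = 0 := by
  rw [SS_eq_TM f c M hc hcp ψ j]
  exact sum_eq_zero fun b hb => h b (mem_Ico.mp hb).1 (mem_Ico.mp hb).2

end H78AB
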